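import Pool.Agent.Helper9_Protasov.Main

set_option autoImplicit false
open Pointwise

/-- For every `n ≥ 4` there are a group `G` and a partition of `G` into `n` cells such that no cell
`A` admits a finite set `F` with at most `n` elements and `G = F * A * A⁻¹`. -/
theorem Pool.Agent.Results.MP_cfdc37_al.FailsFromFour.result (n : ℕ) (hn : 4 ≤ n) :
    ∃ (G : Type) (_ : Group G) (A : Fin n → Set G),
      (⋃ i, A i) = Set.univ ∧ Pairwise (fun i j => Disjoint (A i) (A j)) ∧
      ∀ (i : Fin n) (F : Finset G), F.card ≤ n → (F : Set G) * A i * (A i)⁻¹ ≠ Set.univ := by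
  obtain ⟨A, hA⟩ := Pool.Agent.Helper9_Protasov.main hn
  exact ⟨Pool.Agent.Helper9_Protasov.G, inferInstance, A, hA⟩
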